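import Mathlib

set_option autoImplicit false

namespace Pool.Agent.MP_34e614_co.H98

open DoubleCoset

universe u

/-- `G` has a Tits system (BN-pair) whose subgroup `B` is solvable. The set `S` consists of
representatives in `N` of the distinguished generators of the Weyl group `N / (B ⊓ N)`. -/
def SolvableBN (G : Type u) [Group G] : Prop :=
  ∃ (B N : Subgroup G) (S : Set G), Group.IsSolvable B ∧ B ⊔ N = ⊤ ∧
    ((B ⊓ N).subgroupOf N).Normal ∧ (B ⊓ N) ⊔ Subgroup.closure S = N ∧ (∀ s ∈ S, s * s ∈ B) ∧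
    (∀ s ∈ S, ∀ b ∈ B, ∀ n ∈ N, s * b * n ∈ doubleCoset n B B ∪ doubleCoset (s * n) B B) ∧
    ∀ s ∈ S, ∃ b ∈ B, s * b * s⁻¹ ∉ B

end Pool.Agent.MP_34e614_co.H98
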