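import Pool.Agent.MP_34e614_co.H98.Tits
import Pool.Agent.MP_34e614_co.H31.PartF

/-! The known finite simple groups have large solvable subgroups, hence large commuting subsets. -/

set_option autoImplicit false

namespace Pool.Agent.MP_34e614_co.H98

open DoubleCoset

universe u

theorem bn_card {G : Type u} [Group G] [Finite G] (h : SolvableBN G) :
    ∃ B : Subgroup G, Group.IsSolvable B ∧ ∃ L : ℕ, 2 ^ L ≤ Nat.card B ^ 2 ∧
      Nat.card G ≤ (Nat.card B + 1) ^ L * Nat.card B ^ 2 := by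
  obtain ⟨B, N, S, hB, hBN, hn, hS, h2, h3, h4⟩ := h
  refine ⟨B, hB, ?_⟩
  let π : N →* N ⧸ (B ⊓ N).subgroupOf N := QuotientGroup.mk' _
  have ker : ∀ n m : N, π n = π m ↔ ((n : G)⁻¹ * m) ∈ B := fun n m =>
    QuotientGroup.eq.trans ⟨fun a => a.1, fun a => ⟨a, (n⁻¹ * m).2⟩⟩
  have ker1 : ∀ n : N, (n : G) ∈ B → π n = 1 := fun n a =>
    ((ker 1 n).2 (by simpa using a)).symm.trans π.map_one
  have sur : ∀ w, ∃ n, π n = w := QuotientGroup.mk'_surjective _
  let c := fun w (g : G) => ∃ n : N, π n = w ∧ ∃ b ∈ B, ∃ b' ∈ B, g = b * n * b'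
  have rep : ∀ (n : N) (g : G), c (π n) g ↔ ∃ b ∈ B, ∃ b' ∈ B, g = b * n * b' := fun n g =>
    ⟨fun ⟨m, e, b, hb, b', hb', e'⟩ => ⟨b, hb, (n : G)⁻¹ * m * b',
      B.mul_mem ((ker n m).1 e.symm) hb', by rw [e']; group⟩, fun a => ⟨n, rfl, a⟩⟩
  have hSN : ∀ s ∈ S, s ∈ N := fun s hs =>
    hS ▸ Subgroup.mem_sup_right (Subgroup.subset_closure hs)
  have mul : ∀ w g, c w g → ∀ b ∈ B, ∀ b' ∈ B, c w (b * g * b') := by
    rintro w _ ⟨n, e, b, hb, b', hb', rfl⟩ a ha a' ha'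
    exact ⟨n, e, a * b, B.mul_mem ha hb, b' * a', B.mul_mem hb' ha', by group⟩
  have t3 : ∀ s : N, (s : G) ∈ S → ∀ w x y, c (π s) x → c w y →
      c w (x * y) ∨ c (π s * w) (x * y) := by
    rintro s hs _ x _ hx ⟨n, rfl, a, ha, a', ha', rfl⟩
    obtain ⟨b, hb, b', hb', rfl⟩ := (rep s x).1 hx
    have e : b * s * b' * (a * n * a') = b * (s * (b' * a) * n) * a' := by group
    rw [e, ← map_mul]
    exact (h3 s hs _ (B.mul_mem hb' ha) n n.2).imp
      (fun z => mul _ _ ((rep n _).2 (mem_doubleCoset.1 z)) b hb a' ha')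
      fun z => mul _ _ ((rep (s * n) _).2 (mem_doubleCoset.1 z)) b hb a' ha'
  have self : ∀ n : N, c (π n) n := fun n => ⟨n, rfl, 1, B.one_mem, 1, B.one_mem, by simp⟩
  have sinv : ∀ s : G, s⁻¹ = s * (s * s)⁻¹ := fun s => by group
  refine Ti.card_G (S := {w | ∃ n : N, (n : G) ∈ S ∧ π n = w}) (c := c)
    ⟨fun w => ?_, ?_, fun g hg => ?_, ?_, fun w => ?_, fun g => ?_, mul, fun w g g' hg hg' => ?_,
      ?_, fun v w g hg => ?_, ?_, ?_⟩
  · obtain ⟨⟨n, hn⟩, rfl⟩ := sur w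
    have hn' : n ∈ Subgroup.closure (((B ⊓ N : Subgroup G) : Set G) ∪ S) := by
      rwa [Subgroup.closure_union, Subgroup.closure_eq, hS]
    have key : ∀ x ∈ ((B ⊓ N : Subgroup G) : Set G) ∪ S, ∀ m : N, (m : G) = x ∨ (m : G) = x⁻¹ →
        π m = 1 ∨ ∃ n : N, (n : G) ∈ S ∧ π n = π m := by
      rintro x (hx | hx) m (rfl | e)
      · exact Or.inl (ker1 m hx.1)
      · exact Or.inl (ker1 m (e ▸ B.inv_mem hx.1))
      · exact Or.inr ⟨m, hx, rfl⟩
      · exact Or.inr ⟨⟨x, hSN x hx⟩, hx, (ker _ _).2 (by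
          rw [e, ← mul_inv_rev]; exact B.inv_mem (h2 x hx))⟩
    have step : ∀ m y : N, (π m = 1 ∨ ∃ n : N, (n : G) ∈ S ∧ π n = π m) →
        (∃ k, ∃ l : List _, l.length = k ∧ (∀ s ∈ l, ∃ n : N, (n : G) ∈ S ∧ π n = s) ∧
          l.prod = π y) →
        ∃ k, ∃ l : List _, l.length = k ∧ (∀ s ∈ l, ∃ n : N, (n : G) ∈ S ∧ π n = s) ∧
          l.prod = π (m * y) := by
      rintro m y (a | a) ⟨_, l, -, a2, a3⟩
      · exact ⟨_, l, rfl, a2, by rw [map_mul, a, one_mul, a3]⟩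
      · exact ⟨_, π m :: l, rfl, List.forall_mem_cons.2 ⟨a, a2⟩, by
          rw [List.prod_cons, map_mul, a3]⟩
    have hN : ∀ x ∈ Subgroup.closure (((B ⊓ N : Subgroup G) : Set G) ∪ S), x ∈ N := by
      intro x hx
      rwa [Subgroup.closure_union, Subgroup.closure_eq, hS] at hx
    induction hn' using Subgroup.closure_induction_left with
    | one => exact ⟨0, [], rfl, by simp, π.map_one.symm⟩
    | mul_left x hx y hy ih =>
      exact step ⟨x, hN x (Subgroup.subset_closure hx)⟩ ⟨y, hN y hy⟩ (key x hx _ (Or.inl rfl))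
        (ih _)
    | inv_mul_cancel x hx y hy ih =>
      exact step ⟨x⁻¹, N.inv_mem (hN x (Subgroup.subset_closure hx))⟩ ⟨y, hN y hy⟩
        (key x hx _ (Or.inr rfl)) (ih _)
  · rintro _ ⟨s, hs, rfl⟩
    rw [← map_mul]
    exact ker1 _ (h2 s hs)
  · obtain ⟨b, hb, b', hb', rfl⟩ := (rep 1 g).1 (π.map_one.symm ▸ hg)
    simpa using B.mul_mem hb hb'
  · rintro _ _ ⟨n, rfl, b, hb, b', hb', rfl⟩ hg
    exact ker1 n ((B.mul_mem_cancel_left hb).1 ((B.mul_mem_cancel_right hb').1 hg))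
  · obtain ⟨n, rfl⟩ := sur w
    exact ⟨n, self n⟩
  · have hg : g ∈ Subgroup.closure ((B : Set G) ∪ S) := by
      have : B ⊔ N ≤ Subgroup.closure ((B : Set G) ∪ S) := by
        rw [Subgroup.closure_union, Subgroup.closure_eq, ← hS]
        exact sup_le le_sup_left (sup_le_sup_right inf_le_left _)
      exact this (hBN ▸ Subgroup.mem_top g)
    have lb : ∀ b ∈ B, ∀ y, (∃ w, c w y) → ∃ w, c w (b * y) := fun b hb y ⟨w, hw⟩ =>
      ⟨w, by simpa using mul w y hw b hb 1 B.one_mem⟩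
    have ls : ∀ s ∈ S, ∀ y, (∃ w, c w y) → ∃ w, c w (s * y) := fun s hs y ⟨w, hw⟩ =>
      (t3 ⟨s, hSN s hs⟩ hs w s y (self ⟨s, hSN s hs⟩) hw).elim (fun a => ⟨_, a⟩) fun a => ⟨_, a⟩
    induction hg using Subgroup.closure_induction_left with
    | one => exact ⟨_, self 1⟩
    | mul_left x hx y _ ih => exact hx.elim (fun a => lb x a y ih) fun a => ls x a y ih
    | inv_mul_cancel x hx y _ ih =>
      refine hx.elim (fun a => lb _ (B.inv_mem a) y ih) fun a => ?_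
      rw [sinv, mul_assoc]
      exact ls x a _ (lb _ (B.inv_mem (h2 x a)) y ih)
  · obtain ⟨n, rfl, a, ha, a', ha', rfl⟩ := hg
    obtain ⟨b, hb, b', hb', rfl⟩ := (rep n g').1 hg'
    exact ⟨b * a⁻¹, B.mul_mem hb (B.inv_mem ha), a'⁻¹ * b', B.mul_mem (B.inv_mem ha') hb',
      by group⟩
  · rintro _ _ ⟨n, rfl, b, hb, b', hb', rfl⟩
    exact ⟨n⁻¹, π.map_inv n, b'⁻¹, B.inv_mem hb', b⁻¹, B.inv_mem hb, by
      rw [Subgroup.coe_inv]; group⟩
  · obtain ⟨n, rfl⟩ := sur v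
    obtain ⟨m, rfl⟩ := sur w
    obtain ⟨b, hb, b', hb', rfl⟩ := (rep (n * m) g).1 (π.map_mul n m ▸ hg)
    exact ⟨b * n, m * b', ⟨n, rfl, b, hb, 1, B.one_mem, (mul_one _).symm⟩,
      ⟨m, rfl, 1, B.one_mem, b', hb', by rw [one_mul]⟩, by rw [Subgroup.coe_mul]; group⟩
  · rintro _ ⟨s, hs, rfl⟩
    exact t3 s hs
  · rintro _ ⟨s, hs, rfl⟩
    exact ⟨s, self s, h4 s hs⟩

theorem log_two_le {b : ℕ} (hb : 2 ≤ b) : (2 / 3 : ℝ) ≤ Real.log b :=
  (le_of_lt (lt_trans (by norm_num) Real.log_two_gt_d9)).trans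
    (Real.log_le_log two_pos (by exact_mod_cast hb))

theorem bn_log {g b L : ℕ} (hg : 0 < g) (hb : 0 < b) (h1 : 2 ^ L ≤ b ^ 2)
    (h2 : g ≤ (b + 1) ^ L * b ^ 2) : Real.log g ≤ 300 * Real.log b ^ 2 := by
  rcases (Nat.succ_le_of_lt hb).eq_or_lt with rfl | hb2
  · obtain rfl : L = 0 := by
      by_contra a
      exact absurd (Nat.one_lt_two_pow a) (not_lt.2 h1)
    obtain rfl : g = 1 := le_antisymm h2 hg
    simp
  have a0 := log_two_le hb2
  have hb' : (2 : ℝ) ≤ b := by exact_mod_cast hb2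
  have a1 : (L : ℝ) * Real.log 2 ≤ 2 * Real.log b := by
    have := Real.log_le_log (by positivity) (show (2 : ℝ) ^ L ≤ (b : ℝ) ^ 2 by exact_mod_cast h1)
    rwa [Real.log_pow, Real.log_pow, Nat.cast_ofNat] at this
  have a2 : Real.log ((b : ℝ) + 1) ≤ 2 * Real.log b := by
    have := Real.log_le_log (by positivity) (show (b : ℝ) + 1 ≤ (b : ℝ) ^ 2 by nlinarith)
    rwa [Real.log_pow, Nat.cast_ofNat] at this
  have a3 := Real.log_le_log (by positivity)
    (show (g : ℝ) ≤ ((b : ℝ) + 1) ^ L * (b : ℝ) ^ 2 by exact_mod_cast h2)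
  rw [Real.log_mul (by positivity) (by positivity), Real.log_pow, Real.log_pow,
    Nat.cast_ofNat] at a3
  have a4 := Real.log_two_gt_d9
  have a5 : (0 : ℝ) ≤ L := Nat.cast_nonneg L
  have a6 : (L : ℝ) ≤ 3 * Real.log b := by nlinarith
  have a7 := mul_le_mul a6 a2 (Real.log_nonneg (by linarith)) (by linarith)
  nlinarith

theorem three_pow_dvd (k : ℕ) : 3 ^ k ∣ (3 * k).factorial := by
  induction k with
  | zero => simp
  | succ k ih =>
    rw [show 3 * (k + 1) = 3 * k + 2 + 1 by ring, Nat.factorial_succ, pow_succ']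
    exact mul_dvd_mul ⟨k + 1, by ring⟩ (ih.trans (Nat.factorial_dvd_factorial (by omega)))

theorem small_log {S : Type u} [Group S] [Finite S] [Nontrivial S] (h : Nat.card S ≤ 10 ^ 54) :
    ∃ B : Subgroup S, Group.IsSolvable B ∧ Real.log (Nat.card S) ≤ 300 * Real.log (Nat.card B) ^ 2 := by
  obtain ⟨x, hx⟩ := exists_ne (1 : S)
  refine ⟨Subgroup.zpowers x, Group.isSolvable_of_comm fun a b => mul_comm' a b, ?_⟩
  have a0 := log_two_le (b := Nat.card (Subgroup.zpowers x)) (by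
    rw [Nat.card_zpowers]
    have h1 := orderOf_pos x
    have h2 : orderOf x ≠ 1 := fun e => hx (orderOf_eq_one_iff.1 e)
    omega)
  have a1 := Real.log_le_log (by exact_mod_cast Nat.card_pos)
    (show (Nat.card S : ℝ) ≤ 2 ^ 180 by exact_mod_cast h.trans (by norm_num))
  rw [Real.log_pow] at a1
  have a2 := Real.log_two_lt_d9
  push_cast at a1
  nlinarith

theorem alt_log {S : Type u} [Group S] [Finite S] [Nontrivial S] {n : ℕ}
    (e : S ≃* alternatingGroup (Fin n)) :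
    ∃ B : Subgroup S, Group.IsSolvable B ∧ Real.log (Nat.card S) ≤ 300 * Real.log (Nat.card B) ^ 2 := by
  have h0 : Nat.card S ≤ n.factorial := by
    rw [Nat.card_congr e.toEquiv]
    simpa [Fintype.card_perm] using Subgroup.card_le_card_group (alternatingGroup (Fin n))
  rcases le_or_gt n 5 with hn | hn
  · exact small_log (h0.trans ((Nat.factorial_le hn).trans (by decide)))
  have : Nontrivial (Fin n) := Fin.nontrivial_iff_two_le.2 (by omega)
  have h1 : 2 * Nat.card S = n.factorial := by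
    rw [Nat.card_congr e.toEquiv, two_mul_nat_card_alternatingGroup, Nat.card_perm]
    simp
  have h2 : 3 ^ (n / 3) ∣ Nat.card S :=
    (Nat.Coprime.pow_left _ (by decide : Nat.Coprime 3 2)).dvd_of_dvd_mul_left
      (h1 ▸ (three_pow_dvd _).trans (Nat.factorial_dvd_factorial (by omega)))
  have : Fact (Nat.Prime 3) := ⟨Nat.prime_three⟩
  obtain ⟨B, hB⟩ := Sylow.exists_subgroup_card_pow_prime 3 h2
  have := (IsPGroup.of_card hB).isNilpotent
  refine ⟨B, inferInstance, ?_⟩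
  have a1 := Real.log_le_log (by exact_mod_cast Nat.card_pos)
    (show (Nat.card S : ℝ) ≤ (n : ℝ) ^ n by exact_mod_cast h0.trans n.factorial_le_pow)
  have hn' : (5 : ℝ) < n := by exact_mod_cast hn
  have a2 := Real.log_le_self (show (0 : ℝ) ≤ n by linarith)
  have a3 := log_two_le (b := 3) (by norm_num)
  have a4 : (n : ℝ) ≤ 5 * (n / 3 : ℕ) := by exact_mod_cast (show n ≤ 5 * (n / 3) by omega)
  rw [Real.log_pow] at a1
  rw [hB, Nat.cast_pow, Real.log_pow]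
  have a5 : (n : ℝ) ≤ 10 * ((n / 3 : ℕ) * Real.log (3 : ℕ)) := by nlinarith
  nlinarith

theorem known_comm : ∃ c γ : ℝ, 0 < c ∧ 0 < γ ∧ ∀ (S : Type u) [Group S] [Finite S] [Nontrivial S],
    Nat.card S ≤ 10 ^ 54 ∨ (∃ n, Nonempty (S ≃* alternatingGroup (Fin n))) ∨ SolvableBN S →
    ∃ T : Finset S, (∀ x ∈ T, ∀ y ∈ T, x * y = y * x) ∧
      Real.exp (c * Real.log (Nat.card S) ^ γ) ≤ T.card := by
  obtain ⟨c, γ, hc, hγ, h⟩ := H31.pyber_of_simple.{u} one_pos one_pos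
  have hp : (0 : ℝ) < 300 ^ (γ / 2) := by positivity
  refine ⟨c / 300 ^ (γ / 2), γ / 2, by positivity, by positivity, fun S _ _ _ hS => ?_⟩
  obtain ⟨B, hB, hl⟩ : ∃ B : Subgroup S, Group.IsSolvable B ∧
      Real.log (Nat.card S) ≤ 300 * Real.log (Nat.card B) ^ 2 := by
    rcases hS with a | ⟨n, ⟨e⟩⟩ | a
    · exact small_log a
    · exact alt_log e
    · obtain ⟨B, hB, L, h1, h2⟩ := bn_card a
      exact ⟨B, hB, bn_log Nat.card_pos Nat.card_pos h1 h2⟩
  obtain ⟨T, -, h1, h2⟩ := h B (fun H N _ _ _ =>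
    Or.inl (IsSimpleGroup.comm_iff_isSolvable.2 inferInstance)) ⊤ inferInstance
  refine ⟨T.map ⟨B.subtype, B.subtype_injective⟩, fun x hx y hy => ?_, ?_⟩
  · obtain ⟨a, ha, rfl⟩ := Finset.mem_map.1 hx
    obtain ⟨b, hb, rfl⟩ := Finset.mem_map.1 hy
    exact congrArg Subtype.val (h1 a ha b hb)
  rw [Finset.card_map]
  rw [Subgroup.card_top] at h2
  refine (Real.exp_le_exp.2 ?_).trans h2
  have a0 := Real.log_natCast_nonneg (Nat.card B)
  have a1 := Real.rpow_le_rpow (Real.log_natCast_nonneg _) hl (by positivity : 0 ≤ γ / 2)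
  rw [Real.mul_rpow (by norm_num) (by positivity), ← Real.rpow_natCast, ← Real.rpow_mul a0,
    show ((2 : ℕ) : ℝ) * (γ / 2) = γ by push_cast; ring] at a1
  rw [div_mul_eq_mul_div, div_le_iff₀ hp, mul_assoc, mul_comm _ (300 ^ (γ / 2))]
  exact mul_le_mul_of_nonneg_left a1 hc.le

theorem weaken {S : Type u} [Group S] (h : 3 ≤ Nat.card S) {c γ c' γ' : ℝ} (h1 : c' ≤ c)
    (h2 : γ' ≤ γ) (hc : 0 < c)
    (hT : ∃ T : Finset S, (∀ x ∈ T, ∀ y ∈ T, x * y = y * x) ∧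
      Real.exp (c * Real.log (Nat.card S) ^ γ) ≤ T.card) :
    ∃ T : Finset S, (∀ x ∈ T, ∀ y ∈ T, x * y = y * x) ∧
      Real.exp (c' * Real.log (Nat.card S) ^ γ') ≤ T.card := by
  obtain ⟨T, a, b⟩ := hT
  have h3 : (3 : ℝ) ≤ Nat.card S := by exact_mod_cast h
  have h4 : 1 ≤ Real.log (Nat.card S) :=
    (Real.le_log_iff_exp_le (by linarith)).2 (by linarith [Real.exp_one_lt_d9])
  exact ⟨T, a, (Real.exp_le_exp.2 (mul_le_mul h1 (Real.rpow_le_rpow_of_exponent_le h4 h2)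
    (Real.rpow_nonneg (by linarith) _) hc.le)).trans b⟩

end Pool.Agent.MP_34e614_co.H98
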