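import Pool.Agent.MP_34e614_co.H98.Defs

/-! The order of a finite group with a BN-pair is quasi-polynomial in the order of `B`. -/

set_option autoImplicit false

open scoped Pointwise

namespace Pool.Agent.MP_34e614_co.H98

universe u

variable {G W : Type u} [Group G] [Group W]

/-- The double cosets `c w` of a Tits system, indexed by the Weyl group. -/
structure Ti (B : Subgroup G) (S : Set W) (c : W → G → Prop) : Prop where
  gen : ∀ w, ∃ n, ∃ l : List W, l.length = n ∧ (∀ s ∈ l, s ∈ S) ∧ l.prod = w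
  sq : ∀ s ∈ S, s * s = 1
  one : ∀ g, c 1 g → g ∈ B
  one' : ∀ w g, c w g → g ∈ B → w = 1
  ex : ∀ w, ∃ g, c w g
  all : ∀ g, ∃ w, c w g
  mul : ∀ w g, c w g → ∀ b ∈ B, ∀ b' ∈ B, c w (b * g * b')
  same : ∀ w g g', c w g → c w g' → ∃ b ∈ B, ∃ b' ∈ B, g' = b * g * b'
  inv : ∀ w g, c w g → c w⁻¹ g⁻¹
  dec : ∀ v w g, c (v * w) g → ∃ x y, c v x ∧ c w y ∧ g = x * y
  t3 : ∀ s ∈ S, ∀ w x y, c s x → c w y → c w (x * y) ∨ c (s * w) (x * y)
  t4 : ∀ s ∈ S, ∃ x, c s x ∧ ∃ b ∈ B, x * b * x⁻¹ ∉ B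

namespace Ti

variable {B : Subgroup G} {S : Set W} {c : W → G → Prop} (h : Ti B S c)

open Classical in
/-- the length function of the Weyl group -/
noncomputable def len (w : W) : ℕ := Nat.find (h.gen w)

theorem len_spec (w : W) : ∃ l : List W, l.length = h.len w ∧ (∀ s ∈ l, s ∈ S) ∧ l.prod = w := by
  classical
  exact Nat.find_spec (h.gen w)

theorem len_le {l : List W} (hl : ∀ s ∈ l, s ∈ S) : h.len l.prod ≤ l.length := by
  classical
  exact Nat.find_min' _ ⟨l, rfl, hl, rfl⟩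

theorem len_zero {w : W} (e : h.len w = 0) : w = 1 := by
  obtain ⟨l, h1, -, h3⟩ := h.len_spec w
  rw [← h3, List.length_eq_zero_iff.1 (h1.trans e), List.prod_nil]

theorem len_left {s : W} (hs : s ∈ S) (w : W) : h.len (s * w) ≤ h.len w + 1 := by
  obtain ⟨l, h1, h2, h3⟩ := h.len_spec w
  have := h.len_le (l := s :: l) (List.forall_mem_cons.2 ⟨hs, h2⟩)
  rwa [List.prod_cons, List.length_cons, h1, h3] at this

theorem len_right {s : W} (hs : s ∈ S) (w : W) : h.len (w * s) ≤ h.len w + 1 := by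
  obtain ⟨l, h1, h2, h3⟩ := h.len_spec w
  have := h.len_le (l := l ++ [s]) (List.forall_mem_append.2 ⟨h2, by simpa using hs⟩)
  rwa [List.prod_append, List.prod_singleton, List.length_append, List.length_singleton, h1,
    h3] at this

theorem cons {w : W} {k : ℕ} (e : h.len w = k + 1) : ∃ s ∈ S, ∃ v, w = s * v ∧ h.len v = k := by
  obtain ⟨l, h1, h2, h3⟩ := h.len_spec w
  rcases l with _ | ⟨s, l⟩
  · exact absurd (h1.trans e) (by simp)
  obtain ⟨hs, hl⟩ := List.forall_mem_cons.1 h2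
  have a1 := h.len_le hl
  have a2 := h.len_left hs l.prod
  rw [List.prod_cons] at h3
  rw [List.length_cons] at h1
  rw [h3] at a2
  exact ⟨s, hs, l.prod, h3.symm, by omega⟩

theorem snoc {w : W} {k : ℕ} (e : h.len w = k + 1) : ∃ s ∈ S, ∃ v, w = v * s ∧ h.len v = k := by
  obtain ⟨l, h1, h2, h3⟩ := h.len_spec w
  rcases l.eq_nil_or_concat with rfl | ⟨l, s, rfl⟩
  · exact absurd (h1.trans e) (by simp)
  rw [List.concat_eq_append] at h1 h2 h3
  obtain ⟨hl, hs⟩ := List.forall_mem_append.1 h2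
  have hs' : s ∈ S := hs s (by simp)
  have a1 := h.len_le hl
  have a2 := h.len_right hs' l.prod
  rw [List.prod_append, List.prod_singleton] at h3
  rw [List.length_append, List.length_singleton] at h1
  rw [h3] at a2
  exact ⟨s, hs', l.prod, h3.symm, by omega⟩

include h

theorem inv_s {s : W} (hs : s ∈ S) {x : G} (hx : c s x) : c s x⁻¹ := by
  have := h.inv s x hx
  rwa [inv_eq_of_mul_eq_one_right (h.sq s hs)] at this

theorem t3r {s : W} (hs : s ∈ S) {w : W} {x y : G} (hx : c w x) (hy : c s y) :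
    c w (x * y) ∨ c (w * s) (x * y) := by
  refine (h.t3 s hs _ _ _ (h.inv_s hs hy) (h.inv w x hx)).imp (fun a => ?_) fun a => ?_
  · simpa using h.inv _ _ a
  · simpa [inv_eq_of_mul_eq_one_right (h.sq s hs)] using h.inv _ _ a

theorem disj_aux (k : ℕ) : ∀ {w w' : W} {g : G}, h.len w = k → k ≤ h.len w' → c w g → c w' g →
    w = w' := by
  induction k with
  | zero =>
    intro w w' g e _ h1 h2
    obtain rfl := h.len_zero e
    exact (h.one' _ _ h2 (h.one _ h1)).symm
  | succ k ih =>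
    intro w w' g e hk h1 h2
    obtain ⟨s, hs, v, rfl, hv⟩ := h.cons e
    obtain ⟨x, y, hx, hy, rfl⟩ := h.dec _ _ _ h1
    have a := h.t3 s hs _ _ _ (h.inv_s hs hx) h2
    rw [inv_mul_cancel_left] at a
    have e2 : s * (s * w') = w' := by rw [← mul_assoc, h.sq s hs, one_mul]
    rcases a with a | a
    · obtain rfl := ih hv (by omega) hy a
      omega
    · have := h.len_left hs (s * w')
      rw [e2] at this
      rw [ih hv (by omega) hy a, e2]

theorem disj {w w' : W} {g : G} (h1 : c w g) (h2 : c w' g) : w = w' := by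
  rcases le_total (h.len w) (h.len w') with a | a
  exacts [h.disj_aux _ rfl a h1 h2, (h.disj_aux _ rfl a h2 h1).symm]

theorem up {s : W} (hs : s ∈ S) {x : G} (hx : c s x) (k : ℕ) : ∀ {w : W} {y : G}, h.len w = k →
    k ≤ h.len (s * w) → c w y → c (s * w) (x * y) := by
  induction k with
  | zero =>
    intro w y e _ hy
    obtain rfl := h.len_zero e
    simpa using h.mul _ _ hx 1 B.one_mem y (h.one _ hy)
  | succ k ih =>
    intro w y e hk hy
    refine (h.t3 s hs _ _ _ hx hy).elim (fun a => ?_) id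
    obtain ⟨t, ht, v, rfl, hv⟩ := h.snoc e
    obtain ⟨y', z, hy', hz, rfl⟩ := h.dec _ _ _ hy
    have a1 := h.len_right ht (s * v)
    rw [mul_assoc] at a1
    have a2 := h.t3r ht (ih hv (by omega) hy') hz
    rw [mul_assoc, mul_assoc] at a2
    refine a2.elim (fun a3 => ?_) id
    rw [← h.disj a3 a, ← mul_assoc, h.sq s hs, one_mul] at hk
    omega

theorem two {s : W} (hs : s ∈ S) : ∃ x x', c s x ∧ c s x' ∧ c s (x⁻¹ * x') := by
  obtain ⟨x, hx, b, hb, hn⟩ := h.t4 s hs
  have a : c s (b * x⁻¹) := by simpa using h.mul _ _ (h.inv_s hs hx) b hb 1 B.one_mem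
  refine ⟨x⁻¹, b * x⁻¹, h.inv_s hs hx, a, ?_⟩
  rw [inv_inv]
  refine (h.t3 s hs _ _ _ hx a).elim id fun a2 => absurd ?_ hn
  rw [h.sq s hs] at a2
  simpa [mul_assoc] using h.one _ a2

variable [Finite G]

theorem card_le (w : W) : Nat.card {g // c w g} ≤ Nat.card B ^ 2 := by
  obtain ⟨n, hn⟩ := h.ex w
  rw [_root_.sq, ← Nat.card_prod]
  refine Nat.card_le_card_of_surjective
    (fun p : B × B => (⟨p.1 * n * p.2, h.mul _ _ hn _ p.1.2 _ p.2.2⟩ : {g // c w g})) ?_
  rintro ⟨g, hg⟩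
  obtain ⟨b, hb, b', hb', rfl⟩ := h.same _ _ _ hn hg
  exact ⟨(⟨b, hb⟩, ⟨b', hb'⟩), rfl⟩

theorem pow_le (k : ℕ) : ∀ w : W, h.len w = k → 2 ^ k ≤ Nat.card {g // c w g} := by
  induction k with
  | zero =>
    intro w _
    obtain ⟨n, hn⟩ := h.ex w
    have : Nonempty {g // c w g} := ⟨⟨n, hn⟩⟩
    exact Nat.card_pos
  | succ k ih =>
    intro w e
    obtain ⟨s, hs, v, rfl, hv⟩ := h.cons e
    obtain ⟨x, x', hx, hx', hxx⟩ := h.two hs
    have up' : ∀ {z y : G}, c s z → c v y → c (s * v) (z * y) := fun hz hy =>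
      h.up hs hz k hv (by omega) hy
    have ne : ∀ y y', c v y → c v y' → x * y ≠ x' * y' := fun y y' hy hy' e2 => by
      have a := up' hxx hy'
      rw [mul_assoc, ← e2, inv_mul_cancel_left] at a
      rw [h.disj a hy] at e
      omega
    have := Nat.card_le_card_of_injective (fun p : {g // c v g} ⊕ {g // c v g} =>
      (Sum.elim (fun y => ⟨x * y.1, up' hx y.2⟩) (fun y => ⟨x' * y.1, up' hx' y.2⟩) p :
        {g // c (s * v) g})) (by
      rintro (y | y) (y' | y') e2 <;> have e3 := congrArg Subtype.val e2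
      · exact congrArg _ (Subtype.ext (mul_left_cancel e3))
      · exact absurd e3 (ne _ _ y.2 y'.2)
      · exact absurd e3.symm (ne _ _ y'.2 y.2)
      · exact congrArg _ (Subtype.ext (mul_left_cancel e3)))
    rw [Nat.card_sum] at this
    have := ih v hv
    omega

theorem card_S [Finite W] : Nat.card S ≤ Nat.card B := by
  obtain ⟨w, hw⟩ := Finite.exists_max h.len
  obtain ⟨n, hn⟩ := h.ex w
  have key : ∀ s : S, ∃ b : B, c s (n * b * n⁻¹) := by
    rintro ⟨s, hs⟩
    obtain ⟨x, x', hx, hx', hxx⟩ := h.two hs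
    obtain ⟨y, hy⟩ := h.ex (s * w)
    have e : s * (s * w) = w := by rw [← mul_assoc, h.sq s hs, one_mul]
    have up' : ∀ {z : G}, c s z → c w (z * y) := fun hz => by
      have := h.up hs hz _ rfl (by rw [e]; exact hw _) hy
      rwa [e] at this
    obtain ⟨b1, h1, b2, h2, e1⟩ := h.same _ _ _ hn (up' hx')
    obtain ⟨b3, h3, b4, h4, e2⟩ := h.same _ _ _ hn (up' hxx)
    refine ⟨⟨b2 * b4⁻¹, B.mul_mem h2 (B.inv_mem h4)⟩, ?_⟩
    have e3 : n * (b2 * b4⁻¹) * n⁻¹ = b1⁻¹ * (x' * y * (x⁻¹ * x' * y)⁻¹) * b3 := by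
      rw [e1, e2]; group
    have e4 : x' * y * (x⁻¹ * x' * y)⁻¹ = x := by group
    have := h.mul _ _ hx _ (B.inv_mem h1) _ h3
    rwa [← e4, ← e3] at this
  choose f hf using key
  exact Nat.card_le_card_of_injective f fun s t e => Subtype.ext (h.disj (hf s) (e ▸ hf t))

theorem card_G [Finite W] : ∃ L : ℕ, 2 ^ L ≤ Nat.card B ^ 2 ∧
    Nat.card G ≤ (Nat.card B + 1) ^ L * Nat.card B ^ 2 := by
  classical
  obtain ⟨w, hw⟩ := Finite.exists_max h.len
  refine ⟨h.len w, (h.pow_le _ w rfl).trans (h.card_le w), ?_⟩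
  have a1 : Nat.card G ≤ Nat.card W * Nat.card B ^ 2 := by
    choose n hn using h.ex
    rw [_root_.sq, ← Nat.card_prod, ← Nat.card_prod]
    refine Nat.card_le_card_of_surjective (fun p : W × B × B => p.2.1 * n p.1 * p.2.2) fun g => ?_
    obtain ⟨v, hv⟩ := h.all g
    obtain ⟨b, hb, b', hb', e⟩ := h.same _ _ _ (hn v) hv
    exact ⟨(v, ⟨b, hb⟩, ⟨b', hb'⟩), e.symm⟩
  refine a1.trans (Nat.mul_le_mul_right _ ?_)
  have := Fintype.ofFinite W
  have a2 : ∀ k, ∀ v, h.len v ≤ k → v ∈ insert 1 S.toFinset ^ k := by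
    intro k
    induction k with
    | zero => intro v hv; simpa using h.len_zero (Nat.le_zero.1 hv)
    | succ k ih =>
      intro v hv
      rw [pow_succ']
      rcases hv.lt_or_eq with hv | hv
      · exact Finset.mem_mul.2 ⟨1, by simp, v, ih v (by omega), one_mul v⟩
      · obtain ⟨s, hs, v, rfl, e⟩ := h.cons hv
        exact Finset.mul_mem_mul (by simp [hs]) (ih v e.le)
  calc Nat.card W = (Finset.univ : Finset W).card := by simp
    _ ≤ (insert 1 S.toFinset ^ h.len w).card := Finset.card_le_card fun v _ => a2 _ v (hw v)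
    _ ≤ (insert 1 S.toFinset).card ^ h.len w := Finset.card_pow_le
    _ ≤ _ := by
      refine Nat.pow_le_pow_left ((Finset.card_insert_le _ _).trans (Nat.succ_le_succ ?_)) _
      rw [Set.toFinset_card, ← Nat.card_eq_fintype_card]
      exact h.card_S

end Ti

end Pool.Agent.MP_34e614_co.H98
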